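import Pool.Agent.H336R2.V.Main

/-! The lower bound for the variance of primes in the reduced classes for every modulus, about every centre. -/

open Finset MeasureTheory

namespace Pool.Agent.L5helper10.EM

open H343 H343.KF H336V

/-- the mean square about `y` over the reduced residue classes -/
noncomputable def GY (X : ℝ) (k : ℕ) (y : ℝ) : ℝ :=
  ∑ A ∈ (range k).filter (fun A => A.Coprime k), (psiA X k A - y) ^ 2

theorem main_center (ε : ℝ) (hε : 0 < ε) : ∃ X0 : ℝ, ∀ X : ℝ, X0 ≤ X → ∀ k : ℕ, 1 ≤ k → (k : ℝ) ≤ X →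
    ∀ y : ℝ, |y| ≤ 6 * (X / Nat.totient k) →
    X * (3 / 2 * Real.log k - Real.log X - ε * Real.log X) ≤ GY X k y := by
  -- parameters
  set η : ℝ := min (ε / 64) (1 / 100) with hηdef
  set ε0 : ℝ := min (ε / 40) (1 / 100) with hε0def
  have hη : 0 < η := by positivity
  have hε0 : 0 < ε0 := by positivity
  have hη1 : η ≤ ε / 64 := min_le_left _ _
  have hη2 : η ≤ 1 / 100 := min_le_right _ _
  have hε1 : ε0 ≤ ε / 40 := min_le_left _ _
  have hε2 : ε0 ≤ 1 / 100 := min_le_right _ _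
  obtain ⟨B, lam, hB, hlam, hI21, hI1⟩ := exists_lam η hη
  obtain ⟨X1, hX1⟩ := norm_sum hB hlam ε0 η hε0 hε2 hη
  obtain ⟨X2, hX2⟩ := mean_sum hB hlam ε0 (η / 6) hε0 hε2 (by positivity)
  obtain ⟨X3, hX3⟩ := pairing hB hlam ε0 η hε0 hε2 hη
  obtain ⟨k1, hk1⟩ := LLK_lower (4 * ε0) η (by positivity) hη
  obtain ⟨k2, hk2⟩ := totient_log (2 / ε)
  set I1 := ∫ v, lam v * Real.sinc (Real.pi * Real.exp v) * Real.exp v with hI1def
  set I2 := ∫ v, lam v ^ 2 * Real.exp v with hI2def
  set K0 : ℝ := max (max k1 k2) 16 with hK0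
  have hK16 : (16 : ℝ) ≤ K0 := le_max_right _ _
  refine ⟨max (max (max X1 X2) (max X3 (K0 ^ 2))) (Real.exp (16 * Real.log 4 / ε)), ?_⟩
  intro X hX k hk hkX y hy
  have hXX1 : X1 ≤ X := le_trans (le_max_left _ _) (le_trans (le_max_left _ _) (le_trans (le_max_left _ _) hX))
  have hXX2 : X2 ≤ X := le_trans (le_max_right _ _) (le_trans (le_max_left _ _) (le_trans (le_max_left _ _) hX))
  have hXX3 : X3 ≤ X := le_trans (le_max_left _ _) (le_trans (le_max_right _ _) (le_trans (le_max_left _ _) hX))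
  have hXK : K0 ^ 2 ≤ X := le_trans (le_max_right _ _) (le_trans (le_max_right _ _) (le_trans (le_max_left _ _) hX))
  have hXE : Real.exp (16 * Real.log 4 / ε) ≤ X := (le_max_right _ _).trans hX
  have hX256 : (256 : ℝ) ≤ X := by nlinarith
  have hX0 : 0 < X := by linarith
  have hlogX : 0 < Real.log X := Real.log_pos (by linarith)
  have hlog4 : Real.log 4 ≤ ε / 16 * Real.log X := by
    have h1 : 16 * Real.log 4 / ε ≤ Real.log X := by
      rw [← Real.log_exp (16 * Real.log 4 / ε)]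
      exact Real.log_le_log (Real.exp_pos _) hXE
    rw [div_le_iff₀ hε] at h1
    linarith
  have hG0 : 0 ≤ GY X k y := sum_nonneg fun _ _ => sq_nonneg _
  have hk0 : (0 : ℝ) < k := by exact_mod_cast hk
  have hk1' : (1 : ℝ) ≤ k := by exact_mod_cast hk
  have hlogk0 : 0 ≤ Real.log k := Real.log_nonneg hk1'
  have hlogkX : Real.log k ≤ Real.log X := Real.log_le_log hk0 hkX
  rcases le_or_gt (3 / 2 * Real.log k - Real.log X - ε * Real.log X) 0 with hneg | hpos
  · exact (mul_nonpos_of_nonneg_of_nonpos hX0.le hneg).trans hG0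
  -- the main range
  have hεX : 0 < ε * Real.log X := by positivity
  have hlk : Real.log X / 2 ≤ Real.log k := by nlinarith
  have hkK : K0 ≤ k := by
    have h1 : Real.log (K0 ^ 2) ≤ Real.log X := Real.log_le_log (by positivity) hXK
    rw [Real.log_pow] at h1
    push_cast at h1
    have h2 : Real.log K0 ≤ Real.log k := by linarith
    exact (Real.log_le_log_iff (by positivity) hk0).1 h2
  have hkk1 : k1 ≤ k := ((le_max_left _ _).trans (le_max_left _ _)).trans hkK
  have hkk2 : k2 ≤ k := ((le_max_right _ _).trans (le_max_left _ _)).trans hkK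
  have hk16 : (16 : ℝ) ≤ k := hK16.trans hkK
  have hXY : X * (k / X) = k := by field_simp
  have hRange : RangeV ε0 X (k / X) := by
    refine ⟨hX0, by positivity, by rw [div_le_one hX0]; exact hkX, by rw [hXY]; exact hk1', ?_⟩
    rw [hXY]
    have h1 : Real.log X ≤ Real.log ((k : ℝ) ^ (3 / 2 - ε0)) := by
      rw [Real.log_rpow hk0]
      have h2 : ε0 * Real.log k ≤ ε * Real.log X := by
        have : ε0 ≤ ε := by linarith
        gcongr
      nlinarith
    exact (Real.log_le_log_iff hX0 (by positivity)).1 h1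
  set Q : ℕ := ⌈(k : ℝ) ^ (4 * ε0) / (k / X)⌉₊ with hQ
  set R : ℕ := ⌊(k : ℝ) ^ (1 / 2 - ε0)⌋₊ with hR
  set N : ℕ := ⌈Real.exp B * R * (k / X)⌉₊ with hN
  have hkXp : 0 < (k : ℝ) / X := by positivity
  have hkX1 : (k : ℝ) / X ≤ 1 := by rw [div_le_one hX0]; exact hkX
  have hq1 : (k : ℝ) ^ (4 * ε0) ≤ (k : ℝ) ^ (4 * ε0) / (k / X) := by
    rw [le_div_iff₀ hkXp]
    have : 0 < (k : ℝ) ^ (4 * ε0) := by positivity
    nlinarith
  have hq2 : (k : ℝ) ^ (4 * ε0) / (k / X) ≤ Q := Nat.le_ceil _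
  have hkε1 : 1 ≤ (k : ℝ) ^ (4 * ε0) := Real.one_le_rpow hk1' (by positivity)
  have hCuts : CutsV ε0 B X (k / X) Q R N := by
    refine ⟨?_, ?_, ?_, ?_⟩
    · rw [hXY]; exact hq1.trans hq2
    · rw [hXY]; exact hq2
    · rw [hXY]; exact Nat.floor_le (by positivity)
    · exact Nat.le_ceil _
  have hQ1 : (1 : ℝ) ≤ Q := hkε1.trans (hq1.trans hq2)
  have hQ2 : (Q : ℝ) ≤ 2 * ((k : ℝ) ^ (4 * ε0) / (k / X)) := by
    have := Nat.ceil_lt_add_one (a := (k : ℝ) ^ (4 * ε0) / (k / X)) (by positivity)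
    have h1 : 1 ≤ (k : ℝ) ^ (4 * ε0) / (k / X) := hkε1.trans hq1
    rw [← hQ] at this
    linarith
  have hkr : 2 ≤ (k : ℝ) ^ (1 / 2 - ε0) := by
    calc (2 : ℝ) = (16 : ℝ) ^ (1 / 4 : ℝ) := by
          rw [show (16 : ℝ) = 2 ^ (4 : ℝ) by norm_num, ← Real.rpow_mul (by norm_num)]
          norm_num
      _ ≤ (k : ℝ) ^ (1 / 4 : ℝ) := by gcongr
      _ ≤ (k : ℝ) ^ (1 / 2 - ε0) := by
          apply Real.rpow_le_rpow_of_exponent_le hk1'
          linarith
  have hR2 : (k : ℝ) ^ (1 / 2 - ε0) / 2 ≤ R := by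
    have := Nat.lt_floor_add_one ((k : ℝ) ^ (1 / 2 - ε0))
    rw [← hR] at this
    linarith
  have hRle : (R : ℝ) ≤ (k : ℝ) ^ (1 / 2 - ε0) := Nat.floor_le (by positivity)
  have hRk : (R : ℝ) ≤ k := by
    refine hRle.trans ?_
    calc (k : ℝ) ^ (1 / 2 - ε0) ≤ (k : ℝ) ^ (1 : ℝ) := by
          apply Real.rpow_le_rpow_of_exponent_le hk1'
          linarith
      _ = k := Real.rpow_one _
  have hR0 : (0 : ℝ) < R := by linarith
  have hQ0 : (0 : ℝ) < Q := by linarith
  set T : ℝ := 3 / 2 * Real.log k - Real.log X with hT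
  have hlogRQ : T - 5 * ε0 * Real.log k - Real.log 4 ≤ Real.log (R / Q) := by
    have h1 : (k : ℝ) ^ (1 / 2 - ε0) / 2 / (2 * ((k : ℝ) ^ (4 * ε0) / (k / X))) ≤ R / Q := by
      gcongr
    have h2 : 0 < (k : ℝ) ^ (1 / 2 - ε0) / 2 / (2 * ((k : ℝ) ^ (4 * ε0) / (k / X))) := by positivity
    refine le_trans (le_of_eq ?_) (Real.log_le_log h2 h1)
    rw [Real.log_div (by positivity) (by positivity), Real.log_div (by positivity) (by norm_num),
      Real.log_mul (by norm_num) (by positivity), Real.log_div (by positivity) (by positivity),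
      Real.log_div (by positivity) (by positivity), Real.log_rpow hk0, Real.log_rpow hk0,
      show (4 : ℝ) = 2 * 2 by norm_num, Real.log_mul (by norm_num) (by norm_num), hT]
    ring
  have hek : ε0 * Real.log k ≤ ε / 40 * Real.log X := by gcongr
  have hηk : η * Real.log k ≤ ε / 64 * Real.log X := by gcongr
  set Λ : ℝ := Real.log (R / Q) - η * Real.log k with hΛ
  have hΛ1 : T - ε / 4 * Real.log X ≤ Λ := by
    rw [hΛ]
    have : 5 * ε0 * Real.log k = 5 * (ε0 * Real.log k) := by ring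
    linarith
  have hTε : ε * Real.log X < T := by rw [hT]; linarith
  have hΛ0 : 0 ≤ Λ := by linarith
  have hRQ0 : 0 ≤ Real.log (R / Q) := by
    have : 0 ≤ η * Real.log k := by positivity
    linarith
  have hQR : Q ≤ R := by
    have h1 : (1 : ℝ) ≤ R / Q := by
      by_contra h
      push Not at h
      have := Real.log_neg (by positivity) h
      linarith
    rw [le_div_iff₀ hQ0, one_mul] at h1
    exact_mod_cast h1
  have hRk' : R ≤ k := by exact_mod_cast hRk
  have hLL := hk1 k Q R hkk1 (hq1.trans hq2) hQR hRk'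
  rw [← hΛ] at hLL
  have hΛX : Λ ≤ Real.log X := by
    have h1 : Real.log (R / Q) ≤ Real.log k := by
      apply Real.log_le_log (by positivity)
      rw [div_le_iff₀ hQ0]
      nlinarith
    have : 0 ≤ η * Real.log k := by positivity
    rw [hΛ]; linarith
  have htot : (0 : ℝ) < Nat.totient k := by exact_mod_cast Nat.totient_pos.2 hk
  have hL1 : 1 ≤ LLK k Q R := by
    refine le_trans ?_ hLL
    have h1 := hk2 k hkk2
    have h2 : 3 / 4 * ε * Real.log k ≤ Λ := by
      have h3 : 3 / 4 * ε * Real.log k ≤ 3 / 4 * ε * Real.log X := by gcongr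
      linarith
    calc (1 : ℝ) ≤ 3 / 4 * ε * (2 / ε) := by field_simp; norm_num
      _ ≤ 3 / 4 * ε * ((Nat.totient k : ℝ) / k * Real.log k) := by gcongr
      _ = (Nat.totient k : ℝ) / k * (3 / 4 * ε * Real.log k) := by ring
      _ ≤ (Nat.totient k : ℝ) / k * Λ := by gcongr
  -- Cauchy-Schwarz
  set F := FF lam (k / X) k Q R N with hF
  set S := (range k).filter (fun n => n.Coprime k) with hS
  have hnorm := hX1 X k hXX1 hRange Q R N hCuts
  have hmean := hX2 X k hXX2 hRange Q R N hCuts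
  have hpair := hX3 X k hXX3 hRange Q R N hCuts
  rw [← Main.pair_eq lam X (k / X) k Q R N hk] at hpair
  have hCS : (∑ A ∈ S, (psiA X k A - y) * (2 * (F A).re)) ^ 2 ≤
      GY X k y * ∑ A ∈ S, (2 * (F A).re) ^ 2 := by
    have := sum_mul_sq_le_sq_mul_sq S (fun A => psiA X k A - y)
      (fun A => 2 * (F A).re)
    exact this
  have hPeq : ∑ A ∈ S, (psiA X k A - y) * (2 * (F A).re) =
      2 * (∑ A ∈ S, (psiA X k A : ℂ) * F A).re - 2 * y * (∑ A ∈ S, F A).re := by
    rw [Complex.re_sum, Complex.re_sum, mul_sum, mul_sum, ← sum_sub_distrib]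
    apply sum_congr rfl
    intro A _
    rw [Complex.re_ofReal_mul]
    ring
  have hP : 2 * (k : ℝ) * (I1 * LLK k Q R - η * (2 + LLK k Q R)) ≤
      ∑ A ∈ S, (psiA X k A - y) * (2 * (F A).re) := by
    rw [hPeq]
    have h1 : |(∑ A ∈ S, F A).re| ≤ η / 6 * Nat.totient k * (k / X) :=
      (Complex.abs_re_le_norm _).trans hmean
    have h2 : 2 * y * (∑ A ∈ S, F A).re ≤ 2 * η * k := by
      calc 2 * y * (∑ A ∈ S, F A).re ≤ |2 * y * (∑ A ∈ S, F A).re| := le_abs_self _
        _ = 2 * |y| * |(∑ A ∈ S, F A).re| := by rw [abs_mul, abs_mul, abs_of_pos (by norm_num : (0 : ℝ) < 2)]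
        _ ≤ 2 * (6 * (X / Nat.totient k)) * (η / 6 * Nat.totient k * (k / X)) := by gcongr
        _ = 2 * η * k := by field_simp
    have h3 : (k : ℝ) * (I1 * LLK k Q R - η * (1 + LLK k Q R)) ≤
      (∑ A ∈ S, (psiA X k A : ℂ) * F A).re := hpair
    nlinarith
  have hfin := Main.final X k (Nat.totient k) (LLK k Q R) I1 I2 η (GY X k y) _ _ Λ hX0 hk0 htot hη hη2 hG0
    hI21 hI1 hL1 hLL hCS hP hnorm
  refine le_trans ?_ hfin
  have h16 : 16 * η * Λ ≤ ε / 4 * Real.log X := by
    calc 16 * η * Λ ≤ 16 * (ε / 64) * Real.log X := by gcongr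
      _ = _ := by ring
  calc X * (T - ε * Real.log X) ≤ X * (Λ - 16 * η * Λ) := by
        apply mul_le_mul_of_nonneg_left _ hX0.le
        linarith
    _ = X * Λ * (1 - 16 * η) := by ring



/-- the mean over the reduced classes minimises the mean square -/
lemma min_center (X : ℝ) (k : ℕ) (hk : 1 ≤ k) (y : ℝ) :
    GY X k ((∑ A ∈ (range k).filter (fun A => A.Coprime k), psiA X k A) / Nat.totient k) ≤ GY X k y := by
  have hφ : (0 : ℝ) < Nat.totient k := by exact_mod_cast Nat.totient_pos.2 hk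
  have hcard : (((range k).filter (fun A => A.Coprime k)).card : ℝ) = Nat.totient k := by
    rw [Nat.totient_eq_card_coprime]
    congr 2
    apply filter_congr
    intro A _
    exact Nat.coprime_comm
  set S := (range k).filter (fun A => A.Coprime k) with hS
  set m := (∑ A ∈ S, psiA X k A) / Nat.totient k with hm
  have h1 : ∑ A ∈ S, psiA X k A = Nat.totient k * m := by rw [hm]; field_simp
  have h2 : GY X k y = GY X k m + Nat.totient k * (m - y) ^ 2 := by
    unfold GY
    have e : ∀ A ∈ S, (psiA X k A - y) ^ 2 =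
        (psiA X k A - m) ^ 2 + (2 * (m - y) * psiA X k A + (m - y) ^ 2 - 2 * (m - y) * m) := by
      intro A _
      ring
    rw [sum_congr rfl e, sum_add_distrib, sum_sub_distrib, sum_add_distrib, ← mul_sum, h1, sum_const, sum_const,
      nsmul_eq_mul, nsmul_eq_mul, hcard]
    ring
  rw [h2]
  have : 0 ≤ Nat.totient k * (m - y) ^ 2 := by positivity
  linarith

lemma mean_le (X : ℝ) (hX : 0 ≤ X) (k : ℕ) (hk : 1 ≤ k) :
    |(∑ A ∈ (range k).filter (fun A => A.Coprime k), psiA X k A) / Nat.totient k| ≤ 6 * (X / Nat.totient k) := by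
  have hφ : (0 : ℝ) < Nat.totient k := by exact_mod_cast Nat.totient_pos.2 hk
  have h0 : ∀ A, 0 ≤ psiA X k A := fun A => sum_nonneg fun n _ => ArithmeticFunction.vonMangoldt_nonneg
  rw [abs_of_nonneg (div_nonneg (sum_nonneg fun A _ => h0 A) hφ.le), ← mul_div_assoc]
  apply div_le_div_of_nonneg_right _ hφ.le
  have h1 : ∑ A ∈ (range k).filter (fun A => A.Coprime k), psiA X k A ≤
      ∑ n ∈ Icc 1 ⌊X⌋₊, ArithmeticFunction.vonMangoldt n := by
    unfold psiA
    have h2 : ∑ A ∈ (range k).filter (fun A => A.Coprime k),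
        ∑ n ∈ (Icc 1 ⌊X⌋₊).filter (fun n => n ≡ A [MOD k]), ArithmeticFunction.vonMangoldt n ≤
        ∑ A ∈ range k, ∑ n ∈ (Icc 1 ⌊X⌋₊).filter (fun n => n % k = A), ArithmeticFunction.vonMangoldt n := by
      refine le_trans (sum_le_sum_of_subset_of_nonneg (filter_subset _ _) fun A _ _ =>
        sum_nonneg fun n _ => ArithmeticFunction.vonMangoldt_nonneg) (le_of_eq ?_)
      apply sum_congr rfl
      intro A hA
      apply sum_congr _ fun _ _ => rfl
      apply filter_congr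
      intro n _
      unfold Nat.ModEq
      rw [Nat.mod_eq_of_lt (mem_range.1 hA)]
    refine h2.trans (le_of_eq ?_)
    apply sum_fiberwise_of_maps_to
    intro n _
    exact mem_range.2 (Nat.mod_lt _ hk)
  refine h1.trans ?_
  have h3 := Chebyshev.psi_le_const_mul_self hX
  rw [Chebyshev.psi_eq_sum_Icc] at h3
  have h4 : ∑ n ∈ Icc 1 ⌊X⌋₊, ArithmeticFunction.vonMangoldt n ≤ ∑ n ∈ Icc 0 ⌊X⌋₊, ArithmeticFunction.vonMangoldt n :=
    sum_le_sum_of_subset_of_nonneg (Icc_subset_Icc_left (by omega)) fun n _ _ =>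
      ArithmeticFunction.vonMangoldt_nonneg
  have h5 : Real.log 4 + 4 ≤ 6 := by
    have h6 : Real.log 4 = 2 * Real.log 2 := by
      rw [show (4 : ℝ) = 2 ^ 2 by norm_num, Real.log_pow]
      norm_num
    have h7 := Real.log_two_lt_d9
    linarith
  have h8 : (Real.log 4 + 4) * X ≤ 6 * X := mul_le_mul_of_nonneg_right h5 hX
  linarith

theorem main_all (ε : ℝ) (hε : 0 < ε) : ∃ X0 : ℝ, ∀ X : ℝ, X0 ≤ X → ∀ k : ℕ, 1 ≤ k → (k : ℝ) ≤ X →
    ∀ y : ℝ, X * (3 / 2 * Real.log k - Real.log X - ε * Real.log X) ≤ GY X k y := by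
  obtain ⟨X0, h⟩ := main_center ε hε
  refine ⟨max X0 0, fun X hX k hk hkX y => ?_⟩
  exact (h X ((le_max_left _ _).trans hX) k hk hkX _ (mean_le X ((le_max_right _ _).trans hX) k hk)).trans
    (min_center X k hk y)

end Pool.Agent.L5helper10.EM
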